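import Pool.Agent.Helper31.CY.St4

set_option autoImplicit false

namespace Pool.Agent.Helper42.CY

open Pool.Agent.Helper31.CY

private theorem encard_le_two_of {α : Type} (S : Set α)
    (h : ∀ a ∈ S, ∀ b ∈ S, ∀ c ∈ S, a ≠ b → b ≠ c → a ≠ c → False) : S.encard ≤ 2 := by
  rcases S.eq_empty_or_nonempty with rfl | ⟨a, ha⟩
  · simp
  · by_cases h1 : ∃ b ∈ S, b ≠ a
    · obtain ⟨b, hb, hba⟩ := h1
      have hsub : S ⊆ {a, b} := by
        intro c hc
        by_contra hcn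
        rw [Set.mem_insert_iff, Set.mem_singleton_iff, not_or] at hcn
        exact h a ha b hb c hc hba.symm (fun e => hcn.2 e.symm) (fun e => hcn.1 e.symm)
      calc S.encard ≤ ({a, b} : Set α).encard := Set.encard_le_encard hsub
        _ = 2 := Set.encard_pair hba.symm
    · push Not at h1
      have hsub : S ⊆ {a} := fun c hc => h1 c hc
      calc S.encard ≤ ({a} : Set α).encard := Set.encard_le_encard hsub
        _ = 1 := Set.encard_singleton a
        _ ≤ 2 := by norm_num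

/-- strict tangent inequality -/
private theorem cosh_tangent (y z : ℝ) (h : z ≠ y) :
    Real.cosh y + (z - y) * Real.sinh y < Real.cosh z := by
  have hd : z - y ≠ 0 := sub_ne_zero.2 h
  have h1 : Real.cosh z = Real.cosh y * Real.cosh (z - y) + Real.sinh y * Real.sinh (z - y) := by
    rw [← Real.cosh_add]
    congr 1
    ring
  have e1 : Real.exp y = Real.cosh y + Real.sinh y := (Real.cosh_add_sinh y).symm
  have e2 : Real.exp (-y) = Real.cosh y - Real.sinh y := (Real.cosh_sub_sinh y).symm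
  have e3 : Real.exp (z - y) = Real.cosh (z - y) + Real.sinh (z - y) :=
    (Real.cosh_add_sinh (z - y)).symm
  have e4 : Real.exp (-(z - y)) = Real.cosh (z - y) - Real.sinh (z - y) :=
    (Real.cosh_sub_sinh (z - y)).symm
  have i1 := Real.add_one_lt_exp hd
  have i2 := Real.add_one_lt_exp (neg_ne_zero.2 hd)
  have p1 := Real.exp_pos y
  have p2 := Real.exp_pos (-y)
  rw [h1]
  rw [e1] at p1
  rw [e2] at p2
  rw [e3] at i1
  rw [e4] at i2
  nlinarith [mul_pos p1 (sub_pos.2 i1), mul_pos p2 (sub_pos.2 i2)]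

/-- one solution -/
private theorem sol (r0 r1 h w a ρ t : ℝ) (hw : 0 < w) (ha : 0 < a) (hρ : 0 < ρ) (ht : 0 < t)
    (hth : t < h)
    (h0 : ρ / w * Real.cosh (t * w / ρ + a) = r0)
    (h1 : ρ / w * Real.cosh ((h - t) * w / ρ + a) = r1) :
    ∃ c y0 y1 : ℝ, c = ρ / w ∧ 0 < c ∧ 0 < y0 ∧ 0 < y1 ∧ c * Real.cosh y0 = r0 ∧
      c * Real.cosh y1 = r1 ∧ c * (y0 - a) = t ∧ c * (y1 - a) = h - t := by
  refine ⟨ρ / w, t * w / ρ + a, (h - t) * w / ρ + a, rfl, by positivity, by positivity, ?_, h0, h1,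
    ?_, ?_⟩
  · have : 0 < (h - t) * w / ρ := by
      have := sub_pos.2 hth
      positivity
    linarith
  · field_simp
    ring
  · field_simp
    ring

/-- one end -/
private theorem one_end (c c' y y' : ℝ) (hc : 0 < c) (hc' : 0 < c') (hy : 0 < y)
    (hne : c ≠ c') (he : c' * Real.cosh y' = c * Real.cosh y) :
    c' * y' < c * y + (c' - c) * (y - Real.cosh y / Real.sinh y) := by
  have hs : 0 < Real.sinh y := Real.sinh_pos_iff.2 hy
  have hch : 0 < Real.cosh y := Real.cosh_pos y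
  have hyy : y' ≠ y := by
    rintro rfl
    apply hne
    exact (mul_right_cancel₀ hch.ne' he).symm
  have h1 := cosh_tangent y y' hyy
  have h2 := mul_lt_mul_of_pos_left h1 hc'
  rw [he] at h2
  have h3 : (c' * y' - (c * y + (c' - c) * (y - Real.cosh y / Real.sinh y))) * Real.sinh y < 0 := by
    have h4 : (c' * y' - (c * y + (c' - c) * (y - Real.cosh y / Real.sinh y))) * Real.sinh y =
        c' * (Real.cosh y + (y' - y) * Real.sinh y) - c * Real.cosh y := by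
      field_simp
      ring
    rw [h4]
    linarith
  by_contra hn
  push Not at hn
  have := mul_nonneg (sub_nonneg.2 hn) hs.le
  linarith

theorem hCQ2 : StCQ2 := by
  intro r0 r1 h
  obtain ⟨w, hw⟩ : ∃ w, w = Real.sqrt (1 + (1 / Real.sqrt 3) ^ 2) := ⟨_, rfl⟩
  obtain ⟨a, haa⟩ : ∃ a, a = Real.arsinh (1 / Real.sqrt 3) := ⟨_, rfl⟩
  have hw0 : 0 < w := by
    rw [hw]
    positivity
  have ha0 : 0 < a := by
    rw [haa]
    exact Real.arsinh_pos_iff.2 (by positivity)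
  have hS : ∀ q ∈ {q : ℝ × ℝ | 0 < q.1 ∧ 0 < q.2 ∧ q.2 < h ∧
      cat q.1 (1 / Real.sqrt 3) q.2 = r0 ∧ cat q.1 (1 / Real.sqrt 3) (h - q.2) = r1},
      ∃ c y0 y1 : ℝ, c = q.1 / w ∧ 0 < c ∧ 0 < y0 ∧ 0 < y1 ∧ c * Real.cosh y0 = r0 ∧
      c * Real.cosh y1 = r1 ∧ c * (y0 - a) = q.2 ∧ c * (y1 - a) = h - q.2 := by
    rintro q ⟨hq1, hq2, hq3, hq4, hq5⟩
    unfold cat at hq4 hq5
    rw [← hw, ← haa] at hq4 hq5
    exact sol r0 r1 h w a q.1 q.2 hw0 ha0 hq1 hq2 hq3 hq4 hq5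
  -- same first component
  have hsame : ∀ q ∈ {q : ℝ × ℝ | 0 < q.1 ∧ 0 < q.2 ∧ q.2 < h ∧
      cat q.1 (1 / Real.sqrt 3) q.2 = r0 ∧ cat q.1 (1 / Real.sqrt 3) (h - q.2) = r1},
      ∀ q' ∈ {q : ℝ × ℝ | 0 < q.1 ∧ 0 < q.2 ∧ q.2 < h ∧
      cat q.1 (1 / Real.sqrt 3) q.2 = r0 ∧ cat q.1 (1 / Real.sqrt 3) (h - q.2) = r1},
      q.1 = q'.1 → q = q' := by
    intro q hq q' hq' he
    obtain ⟨c, y0, y1, hc, hc0, hy0, hy1, k0, k1, l0, l1⟩ := hS q hq
    obtain ⟨c', y0', y1', hc', hc0', hy0', hy1', k0', k1', l0', l1'⟩ := hS q' hq'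
    have hcc : c' = c := by rw [hc, hc', he]
    subst hcc
    have h1 : Real.cosh y0 = Real.cosh y0' := mul_left_cancel₀ hc0.ne' (k0.trans k0'.symm)
    have h2 : y0 = y0' := by
      have := Real.cosh_injOn (Set.mem_Ici.2 hy0.le) (Set.mem_Ici.2 hy0'.le) h1
      exact this
    refine Prod.ext he ?_
    rw [← l0, ← l0', h2]
  have hkey : ∀ q ∈ {q : ℝ × ℝ | 0 < q.1 ∧ 0 < q.2 ∧ q.2 < h ∧
      cat q.1 (1 / Real.sqrt 3) q.2 = r0 ∧ cat q.1 (1 / Real.sqrt 3) (h - q.2) = r1},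
      ∃ s : ℝ, ∀ q' ∈ {q : ℝ × ℝ | 0 < q.1 ∧ 0 < q.2 ∧ q.2 < h ∧
      cat q.1 (1 / Real.sqrt 3) q.2 = r0 ∧ cat q.1 (1 / Real.sqrt 3) (h - q.2) = r1},
      q.1 ≠ q'.1 → 0 < s * (q'.1 - q.1) := by
    intro q hq
    obtain ⟨c, y0, y1, hc, hc0, hy0, hy1, k0, k1, l0, l1⟩ := hS q hq
    refine ⟨(y0 - Real.cosh y0 / Real.sinh y0) + (y1 - Real.cosh y1 / Real.sinh y1) - 2 * a, ?_⟩
    intro q' hq' hne
    obtain ⟨c', y0', y1', hc', hc0', hy0', hy1', k0', k1', l0', l1'⟩ := hS q' hq'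
    have hcc : c ≠ c' := by
      rw [hc, hc']
      intro h2
      exact hne ((div_left_inj' hw0.ne').1 h2)
    have e0 := one_end c c' y0 y0' hc0 hc0' hy0 hcc (k0'.trans k0.symm)
    have e1 := one_end c c' y1 y1' hc0 hc0' hy1 hcc (k1'.trans k1.symm)
    have e2 : 0 < ((y0 - Real.cosh y0 / Real.sinh y0) + (y1 - Real.cosh y1 / Real.sinh y1) - 2 * a) *
        (c' - c) := by
      nlinarith
    have e3 : q'.1 - q.1 = w * (c' - c) := by
      rw [hc, hc']
      field_simp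
    rw [e3]
    have := mul_pos hw0 e2
    linarith
  refine encard_le_two_of _ ?_
  intro q1 h1 q2 h2 q3 h3 h12 h23 h13
  have n12 : q1.1 ≠ q2.1 := fun e => h12 (hsame q1 h1 q2 h2 e)
  have n23 : q2.1 ≠ q3.1 := fun e => h23 (hsame q2 h2 q3 h3 e)
  have n13 : q1.1 ≠ q3.1 := fun e => h13 (hsame q1 h1 q3 h3 e)
  obtain ⟨s1, H1⟩ := hkey q1 h1
  obtain ⟨s2, H2⟩ := hkey q2 h2
  obtain ⟨s3, H3⟩ := hkey q3 h3
  have a12 := H1 q2 h2 n12
  have a13 := H1 q3 h3 n13
  have b21 := H2 q1 h1 n12.symm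
  have b23 := H2 q3 h3 n23
  have c31 := H3 q1 h1 n13.symm
  have c32 := H3 q2 h2 n23.symm
  have fin : ∀ s u v : ℝ, 0 < s * u → 0 < s * v → 0 < u → v < 0 → False := by
    intro s u v h1 h2 hu hv
    have hs : 0 < s := by
      by_contra hn
      push Not at hn
      nlinarith
    nlinarith
  rcases lt_or_gt_of_ne n12 with h | h <;> rcases lt_or_gt_of_ne n23 with h' | h' <;>
    rcases lt_or_gt_of_ne n13 with h'' | h''
  · exact fin s2 _ _ b23 b21 (by linarith) (by linarith)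
  · linarith
  · exact fin s3 _ _ c32 c31 (by linarith) (by linarith)
  · exact fin s1 _ _ a12 a13 (by linarith) (by linarith)
  · exact fin s1 _ _ a13 a12 (by linarith) (by linarith)
  · exact fin s3 _ _ c31 c32 (by linarith) (by linarith)
  · linarith
  · exact fin s2 _ _ b21 b23 (by linarith) (by linarith)

end Pool.Agent.Helper42.CY
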