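import Pool.Agent.Helper31.CY.St2

set_option autoImplicit false

open Set Topology Filter

namespace Pool.Agent.Helper42.CY

open Pool.Agent.Helper31.CY

private lemma near_cat (hCTF : StCTF) (r m : ℝ) (hr : 0 < r) (ε : ℝ) (hε : 0 < ε) :
    ∃ δ : ℝ, 0 < δ ∧ ∀ τ : ℝ, |τ| < δ → |cat r m τ - r| < ε := by
  obtain ⟨h0, -, -, hd, -⟩ := hCTF r m hr
  have hc : ContinuousAt (cat r m) 0 := (hd 0).continuousAt
  rw [Metric.continuousAt_iff] at hc
  obtain ⟨δ, hδ, h⟩ := hc ε hε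
  refine ⟨δ, hδ, fun τ hτ => ?_⟩
  have h1 := h (x := τ) (by rw [Real.dist_eq, sub_zero]; exact hτ)
  rw [Real.dist_eq, h0] at h1
  exact h1

private lemma core (hRHO : StRHO) (hLVL : StLVL) (hCTF : StCTF) (N : Set (ℝ × ℝ)) (r0 r1 h : ℝ)
    (hN : Net N r0 r1 h) (hS : Sg N r0 r1 h) (t m ε0 : ℝ) (ht : t ∈ Icc 0 h) (hε0 : 0 < ε0)
    (h1 : ∀ x ∈ box (rho N t, t) ε0, x ∈ N → x.1 = cat (rho N t) m (x.2 - t))
    (h2 : ∀ s ∈ Icc 0 h, |s - t| < ε0 → |cat (rho N t) m (s - t) - rho N t| < ε0 →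
      (cat (rho N t) m (s - t), s) ∈ N) :
    ∃ ε : ℝ, 0 < ε ∧ (∀ s ∈ Icc 0 h, |s - t| < ε → rho N s = cat (rho N t) m (s - t)) ∧
      ∀ x ∈ box (rho N t, t) ε, x ∈ N → x.1 = rho N x.2 := by
  obtain ⟨-, -, hmax, husc⟩ := hRHO N r0 r1 h hN hS
  obtain ⟨hlev, -⟩ := hLVL N r0 r1 h hN
  obtain ⟨δ1, hδ1, hc⟩ := near_cat hCTF (rho N t) m (hmax t ht).2.1 ε0 hε0
  obtain ⟨δ2, hδ2, hu⟩ := husc t ht ε0 hε0
  have key : ∀ s ∈ Icc 0 h, |s - t| < min ε0 (min δ1 δ2) → rho N s = cat (rho N t) m (s - t) := by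
    intro s hs hst
    have e0 : |s - t| < ε0 := lt_of_lt_of_le hst (min_le_left _ _)
    have e1 : |s - t| < δ1 := lt_of_lt_of_le hst ((min_le_right _ _).trans (min_le_left _ _))
    have e2 : |s - t| < δ2 := lt_of_lt_of_le hst ((min_le_right _ _).trans (min_le_right _ _))
    have e3 := hc (s - t) e1
    have e4 := (hmax s hs).2.2 _ (h2 s hs e0 e3)
    have e5 := hu s hs e2
    refine h1 (rho N s, s) ⟨?_, e0⟩ (hmax s hs).1
    rw [abs_lt] at e3 ⊢
    constructor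
    · show -ε0 < rho N s - rho N t
      linarith [e3.1]
    · show rho N s - rho N t < ε0
      linarith
  refine ⟨min ε0 (min δ1 δ2), lt_min hε0 (lt_min hδ1 hδ2), key, ?_⟩
  intro x hx hxN
  have e1 : |x.2 - t| < min ε0 (min δ1 δ2) := hx.2
  rw [key x.2 (hlev x hxN) e1]
  exact h1 x ⟨lt_of_lt_of_le hx.1 (min_le_left _ _), lt_of_lt_of_le hx.2 (min_le_left _ _)⟩ hxN

/-- a horizontal leg at an end point gives another point of the same height -/
private lemma no_hor (N : Set (ℝ × ℝ)) (q v : ℝ × ℝ) (ε0 : ℝ) (hε0 : 0 < ε0) (hv : v ≠ 0)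
    (hv2 : v.2 = 0) (hb : ∀ x ∈ box q ε0, x ∈ N ↔ onLeg q v x) :
    ∃ x ∈ N, x.2 = q.2 ∧ x ≠ q := by
  have hv1 : v.1 ≠ 0 := by
    intro h
    exact hv (Prod.ext h hv2)
  rcases lt_or_gt_of_ne hv1 with h | h
  · refine ⟨(q.1 - ε0 / 2, q.2), ?_, rfl, ?_⟩
    · refine (hb _ ⟨?_, ?_⟩).2 (Or.inr (Or.inr ⟨hv2, rfl, ?_⟩))
      · show |q.1 - ε0 / 2 - q.1| < ε0
        rw [abs_lt]
        constructor <;> linarith
      · show |q.2 - q.2| < ε0
        rw [sub_self, abs_zero]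
        exact hε0
      · show 0 ≤ (q.1 - ε0 / 2 - q.1) * v.1
        apply mul_nonneg_of_nonpos_of_nonpos <;> linarith
    · intro he
      have := congrArg Prod.fst he
      simp only at this
      linarith
  · refine ⟨(q.1 + ε0 / 2, q.2), ?_, rfl, ?_⟩
    · refine (hb _ ⟨?_, ?_⟩).2 (Or.inr (Or.inr ⟨hv2, rfl, ?_⟩))
      · show |q.1 + ε0 / 2 - q.1| < ε0
        rw [abs_lt]
        constructor <;> linarith
      · show |q.2 - q.2| < ε0
        rw [sub_self, abs_zero]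
        exact hε0
      · show 0 ≤ (q.1 + ε0 / 2 - q.1) * v.1
        apply mul_nonneg <;> linarith
    · intro he
      have := congrArg Prod.fst he
      simp only at this
      linarith

/-- a leg going up gives points above -/
private lemma leg_up (hCTF : StCTF) (N : Set (ℝ × ℝ)) (q v : ℝ × ℝ) (ε0 : ℝ) (hε0 : 0 < ε0)
    (hq : 0 < q.1) (hv2 : 0 < v.2) (hb : ∀ x ∈ box q ε0, x ∈ N ↔ onLeg q v x) :
    ∃ x ∈ N, q.2 < x.2 := by
  obtain ⟨δ, hδ, hc⟩ := near_cat hCTF q.1 (v.1 / v.2) hq ε0 hε0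
  obtain ⟨η, hη⟩ : ∃ η : ℝ, η = min δ ε0 / 2 := ⟨_, rfl⟩
  have hm : 0 < min δ ε0 := lt_min hδ hε0
  have h1 : η < δ := by rw [hη]; linarith [min_le_left δ ε0]
  have h2 : η < ε0 := by rw [hη]; linarith [min_le_right δ ε0]
  have h0 : 0 < η := by rw [hη]; linarith
  refine ⟨(cat q.1 (v.1 / v.2) η, q.2 + η), ?_, by show q.2 < q.2 + η; linarith⟩
  refine (hb _ ⟨hc η (by rw [abs_of_pos h0]; exact h1), ?_⟩).2 (Or.inl ⟨hv2, ?_, ?_⟩)
  · show |q.2 + η - q.2| < ε0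
    rw [add_sub_cancel_left, abs_of_pos h0]
    exact h2
  · show q.2 ≤ q.2 + η
    linarith
  · show cat q.1 (v.1 / v.2) η = cat q.1 (v.1 / v.2) (q.2 + η - q.2)
    rw [add_sub_cancel_left]

/-- a leg going down gives points below -/
private lemma leg_down (hCTF : StCTF) (N : Set (ℝ × ℝ)) (q v : ℝ × ℝ) (ε0 : ℝ) (hε0 : 0 < ε0)
    (hq : 0 < q.1) (hv2 : v.2 < 0) (hb : ∀ x ∈ box q ε0, x ∈ N ↔ onLeg q v x) :
    ∃ x ∈ N, x.2 < q.2 := by
  obtain ⟨δ, hδ, hc⟩ := near_cat hCTF q.1 (v.1 / v.2) hq ε0 hε0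
  obtain ⟨η, hη⟩ : ∃ η : ℝ, η = min δ ε0 / 2 := ⟨_, rfl⟩
  have hm : 0 < min δ ε0 := lt_min hδ hε0
  have h1 : η < δ := by rw [hη]; linarith [min_le_left δ ε0]
  have h2 : η < ε0 := by rw [hη]; linarith [min_le_right δ ε0]
  have h0 : 0 < η := by rw [hη]; linarith
  have e1 : q.2 + -η - q.2 = -η := by ring
  refine ⟨(cat q.1 (v.1 / v.2) (-η), q.2 + -η), ?_, by show q.2 + -η < q.2; linarith⟩
  refine (hb _ ⟨hc (-η) (by rw [abs_neg, abs_of_pos h0]; exact h1), ?_⟩).2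
    (Or.inr (Or.inl ⟨hv2, ?_, ?_⟩))
  · show |q.2 + -η - q.2| < ε0
    rw [e1, abs_neg, abs_of_pos h0]
    exact h2
  · show q.2 + -η ≤ q.2
    linarith
  · show cat q.1 (v.1 / v.2) (-η) = cat q.1 (v.1 / v.2) (q.2 + -η - q.2)
    rw [e1]

theorem hLOA (hRHO : StRHO) (hLVL : StLVL) (hCTF : StCTF) : StLOA := by
  intro N r0 r1 h hN hS
  obtain ⟨hr0, hr1, hmax, husc⟩ := hRHO N r0 r1 h hN hS
  obtain ⟨hlev, -, -, -, hY⟩ := hLVL N r0 r1 h hN
  have hcore := core hRHO hLVL hCTF N r0 r1 h hN hS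
  have hh := hN.h0
  refine ⟨?_, ?_, ?_, hY _ hN.q0 (Or.inl rfl), hY _ hN.q1 (Or.inr rfl)⟩
  · intro t ht
    have htI : t ∈ Icc 0 h := ⟨ht.1.le, ht.2.le⟩
    obtain ⟨hm1, hm2, hm3⟩ := hmax t htI
    refine ⟨?_, ?_⟩
    · have hq0 : (rho N t, t) ≠ (r0, (0 : ℝ)) := by
        intro he
        have := congrArg Prod.snd he
        simp only at this
        exact ht.1.ne' this
      have hq1 : (rho N t, t) ≠ (r1, h) := by
        intro he
        have := congrArg Prod.snd he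
        simp only at this
        exact ht.2.ne this
      rcases hN.int _ hm1 hq0 hq1 hm2 with h1 | h1 | h1
      · exact Or.inl h1
      · exfalso
        obtain ⟨ε, hε, hb⟩ := h1
        have h2 : ((rho N t + ε / 2, t) : ℝ × ℝ) ∈ N := by
          refine (hb _ ⟨?_, ?_⟩).2 rfl
          · show |rho N t + ε / 2 - rho N t| < ε
            rw [abs_lt]
            constructor <;> linarith
          · show |t - t| < ε
            rw [sub_self, abs_zero]
            exact hε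
        have := hm3 _ h2
        linarith
      · exact Or.inr h1
    · rintro ⟨m, ε0, hε0, hb⟩
      obtain ⟨ε, hε, h1, h2⟩ := hcore t m ε0 htI hε0 (fun x hx hxN => (hb x hx).1 hxN)
        (fun s _ hs1 hs2 => (hb (cat (rho N t) m (s - t), s) ⟨hs2, hs1⟩).2 rfl)
      refine ⟨m, min ε (min t (h - t)), lt_min hε (lt_min ht.1 (by linarith [ht.2])), ?_, ?_⟩
      · intro s hs
        have e1 : |s - t| < ε := lt_of_lt_of_le hs (min_le_left _ _)
        have e2 : |s - t| < t := lt_of_lt_of_le hs ((min_le_right _ _).trans (min_le_left _ _))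
        have e3 : |s - t| < h - t := lt_of_lt_of_le hs ((min_le_right _ _).trans (min_le_right _ _))
        rw [abs_lt] at e2 e3
        exact h1 s ⟨by linarith [e2.1], by linarith [e3.2]⟩ e1
      · intro x hx hxN
        exact h2 x ⟨lt_of_lt_of_le hx.1 (min_le_left _ _), lt_of_lt_of_le hx.2 (min_le_left _ _)⟩ hxN
  · have h0I : (0 : ℝ) ∈ Icc 0 h := ⟨le_refl 0, hh.le⟩
    obtain ⟨v, hv, ε0, hε0, hb⟩ := hN.e0
    rcases lt_trichotomy v.2 0 with hv2 | hv2 | hv2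
    · exfalso
      obtain ⟨x, hx, hlt⟩ := leg_down hCTF N (r0, 0) v ε0 hε0 hN.p0 hv2 hb
      exact absurd (hlev x hx).1 (not_le.2 hlt)
    · exfalso
      obtain ⟨x, hx, h1, h2⟩ := no_hor N (r0, 0) v ε0 hε0 hv hv2 hb
      exact h2 ((hS x hx).1 h1)
    · obtain ⟨ε, hε, h1, h2⟩ := hcore 0 (v.1 / v.2) ε0 h0I hε0
        (fun x hx hxN => by
          rw [hr0] at hx ⊢
          rcases (hb x hx).1 hxN with ⟨_, _, h3⟩ | ⟨h3, _⟩ | ⟨h3, _⟩
          · exact h3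
          · exact absurd h3 (not_lt.2 hv2.le)
          · exact absurd h3 hv2.ne')
        (fun s hs hs1 hs2 => by
          rw [hr0] at hs2 ⊢
          exact (hb (cat r0 (v.1 / v.2) (s - 0), s) ⟨hs2, hs1⟩).2 (Or.inl ⟨hv2, hs.1, rfl⟩))
      refine ⟨v.1 / v.2, min ε h, lt_min hε hh, ?_, ?_⟩
      · intro s hs
        have e1 : s < ε := lt_of_lt_of_le hs.2 (min_le_left _ _)
        have e2 : s < h := lt_of_lt_of_le hs.2 (min_le_right _ _)
        have e3 := h1 s ⟨hs.1, e2.le⟩ (by rw [sub_zero, abs_of_nonneg hs.1]; exact e1)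
        rw [sub_zero, hr0] at e3
        exact e3
      · intro x hx hxN
        rw [← hr0] at hx
        exact h2 x ⟨lt_of_lt_of_le hx.1 (min_le_left _ _), lt_of_lt_of_le hx.2 (min_le_left _ _)⟩ hxN
  · have hhI : h ∈ Icc 0 h := ⟨hh.le, le_refl h⟩
    obtain ⟨v, hv, ε0, hε0, hb⟩ := hN.e1
    rcases lt_trichotomy v.2 0 with hv2 | hv2 | hv2
    · obtain ⟨ε, hε, h1, h2⟩ := hcore h (v.1 / v.2) ε0 hhI hε0
        (fun x hx hxN => by
          rw [hr1] at hx ⊢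
          rcases (hb x hx).1 hxN with ⟨h3, _⟩ | ⟨_, _, h3⟩ | ⟨h3, _⟩
          · exact absurd h3 (not_lt.2 hv2.le)
          · exact h3
          · exact absurd h3 hv2.ne)
        (fun s hs hs1 hs2 => by
          rw [hr1] at hs2 ⊢
          exact (hb (cat r1 (v.1 / v.2) (s - h), s) ⟨hs2, hs1⟩).2 (Or.inr (Or.inl ⟨hv2, hs.2, rfl⟩)))
      refine ⟨v.1 / v.2, min ε h, lt_min hε hh, ?_, ?_⟩
      · intro s hs
        have e0 := hs.1
        have e1 : h - s < ε := by linarith [min_le_left ε h]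
        have e2 : h - s < h := by linarith [min_le_right ε h]
        have e3 := h1 s ⟨by linarith, hs.2⟩ (by
          rw [abs_sub_comm, abs_of_nonneg (by linarith [hs.2])]
          exact e1)
        rw [hr1] at e3
        exact e3
      · intro x hx hxN
        rw [← hr1] at hx
        exact h2 x ⟨lt_of_lt_of_le hx.1 (min_le_left _ _), lt_of_lt_of_le hx.2 (min_le_left _ _)⟩ hxN
    · exfalso
      obtain ⟨x, hx, h1, h2⟩ := no_hor N (r1, h) v ε0 hε0 hv hv2 hb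
      exact h2 ((hS x hx).2 h1)
    · exfalso
      obtain ⟨x, hx, hlt⟩ := leg_up hCTF N (r1, h) v ε0 hε0 hN.p1 hv2 hb
      exact absurd (hlev x hx).2 (not_le.2 hlt)

end Pool.Agent.Helper42.CY
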